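import Pool.Agent.H15.IX.TD

/-! Row HF0 of board idx (MP_b5db37_ag): the Hilbert function of the polynomial ring. -/

set_option autoImplicit false

open Finset Pool.Agent.H15.IX
open MvPolynomial

namespace Pool.Agent.H60.IX

universe u

theorem pf_HF0 : T_HF0.{u} := by
  intro V _ r K _ deg hF A
  have h0 : (⊥ : Ideal (MvPolynomial V K)).restrictScalars K ⊓
      weightedHomogeneousSubmodule K deg A = ⊥ := by
    rw [eq_bot_iff]
    intro x hx
    have h1 : x ∈ (⊥ : Ideal (MvPolynomial V K)) := hx.1
    rw [Ideal.mem_bot] at h1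
    rw [Submodule.mem_bot]
    exact h1
  have h1 : Module.finrank K ↥(weightedHomogeneousSubmodule K deg A) = mon deg A := by
    have hfin : Finite {s : V →₀ ℕ // Finsupp.weight deg s = A} := (hF A).to_subtype
    have := Fintype.ofFinite {s : V →₀ ℕ // Finsupp.weight deg s = A}
    rw [weightedHomogeneousSubmodule_eq_finsupp_supported]
    rw [mon, Nat.card_eq_fintype_card]
    exact Module.finrank_eq_card_basis
      (basisRestrictSupport K {s : V →₀ ℕ | Finsupp.weight deg s = A})
  unfold hf
  rw [h0, finrank_bot, h1]
  simp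

end Pool.Agent.H60.IX
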