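import Pool.Agent.H39.IX.Targets2
import Pool.Agent.H39.IX.Lmul

/-!
# CE: conditional expectations (MP_323167_an)
-/

set_option autoImplicit false

open scoped InnerProductSpace Topology
open Filter Finset Pool.Agent.H80.G2 Pool.Agent.H39.IX

namespace Pool.Agent.H60.IX

section

variable {H : Type} [NormedAddCommGroup H] [InnerProductSpace ℂ H] [CompleteSpace H]

/-- the image of `P` as a submodule -/
noncomputable def V0 (P : VonNeumannAlgebra H) {ξ : ℕ → H} (h : Summable fun n => ‖ξ n‖ ^ 2) :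
    Submodule ℂ (KH H) where
  carrier := {κ | ∃ a ∈ P, κ = emb h a}
  zero_mem' := ⟨0, zero_mem P, (map_zero _).symm⟩
  add_mem' := by
    rintro _ _ ⟨a, ha, rfl⟩ ⟨b, hb, rfl⟩
    exact ⟨a + b, add_mem ha hb, (map_add _ _ _).symm⟩
  smul_mem' := by
    rintro c _ ⟨a, ha, rfl⟩
    exact ⟨c • a, smul_mem' P c ha, (map_smul _ _ _).symm⟩

theorem isTr_sub {N P : VonNeumannAlgebra H} {ξ : ℕ → H} (h : IsTr N ξ) (hPN : ∀ x ∈ P, x ∈ N) :
    IsTr P ξ :=
  ⟨h.one, fun x hx y hy => h.comm x (hPN x hx) y (hPN y hy), fun x hx => h.faith x (hPN x hx)⟩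

/-- self-adjoint contractions -/
theorem ce_sa (hLBB : T_LBB) {N P : VonNeumannAlgebra H} {ξ : ℕ → H} (h : IsTr N ξ)
    (hPN : ∀ x ∈ P, x ∈ N) {x : H →L[ℂ] H} (hx : x ∈ N) (hxs : star x = x) (hx1 : ‖x‖ ≤ 1) :
    ∃ e ∈ P, ∀ p ∈ P, tr ξ (p * (x - e)) = 0 := by
  have hP : IsTr P ξ := isTr_sub h hPN
  have hs : Summable fun n => ‖ξ n‖ ^ 2 := hP.one.summable
  set V : Submodule ℂ (KH H) := (V0 P hs).topologicalClosure with hV
  have hVI : (V : Set (KH H)) = Img P hP.one.summable := by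
    rw [hV, Submodule.topologicalClosure_coe]
    rfl
  set p : KH H →L[ℂ] KH H := V.starProjection with hp
  have hpe : ∀ a ∈ P, p (emb hs a) = emb hs a := by
    intro a ha
    refine Submodule.starProjection_eq_self_iff.2 ?_
    exact Submodule.le_topologicalClosure _ ⟨a, ha, rfl⟩
  have hpin : ∀ κ : KH H, ∀ a ∈ P, ⟪p κ, emb hs a⟫_ℂ = ⟪κ, emb hs a⟫_ℂ := by
    intro κ a ha
    rw [hp, Submodule.inner_starProjection_left_eq_right, ← hp, hpe a ha]
  set T : KH H →L[ℂ] KH H := p * Lm x * p with hT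
  have hTs : star T = T := by
    have h1 : star p = p := isSelfAdjoint_starProjection V
    rw [hT, star_mul, star_mul, h1, ← Lm_star, hxs, mul_assoc]
  have hTn : ‖T‖ ≤ 1 := by
    have h1 : ‖p‖ ≤ 1 := Submodule.starProjection_norm_le V
    have h2 : ‖Lm x‖ ≤ 1 := (norm_Lm_le x).trans hx1
    have h3 := norm_mul_le (p * Lm x) p
    have h4 := norm_mul_le p (Lm x)
    have h5 := norm_nonneg p
    have h6 := norm_nonneg (Lm x)
    have h7 : ‖p‖ * ‖Lm x‖ ≤ 1 * 1 := mul_le_mul h1 h2 h6 zero_le_one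
    have h8 : ‖p * Lm x‖ * ‖p‖ ≤ 1 * 1 := mul_le_mul (by linarith) h1 h5 zero_le_one
    linarith
  have hTa : ∀ a ∈ P, T (emb hs a) = p (emb hs (x * a)) := by
    intro a ha
    show p (Lm x (p (emb hs a))) = _
    rw [hpe a ha, Lm_emb]
  obtain ⟨e, heP, -, hTe⟩ := hLBB H P ξ hP T hTs hTn (fun κ => by
      rw [← hVI]
      exact Submodule.starProjection_apply_mem V _) (fun a ha b hb c hc => by
      rw [hTa (a * b) (mul_mem ha hb), hTa a ha, hpin _ c hc,
        hpin _ (c * star b) (mul_mem hc (star_mem hb)), inner_emb, inner_emb]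
      have e1 : star (x * (a * b)) * c = star b * (star (x * a) * c) := by
        rw [← mul_assoc x a b, star_mul, mul_assoc]
      have e2 : star (x * a) * (c * star b) = (star (x * a) * c) * star b := by
        rw [mul_assoc]
      rw [e1, e2]
      exact h.comm _ (star_mem (hPN b hb)) _
        (mul_mem (star_mem (mul_mem hx (hPN a ha))) (hPN c hc)))
  refine ⟨e, heP, fun q hq => ?_⟩
  have h1 : p (emb hs x) = emb hs e := by
    have := hTe 1 (one_mem P)
    rw [hTa 1 (one_mem P), mul_one, mul_one] at this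
    exact this
  have h2 : tr ξ (q * (x - e)) = ⟪emb hs (star q), emb hs (x - e)⟫_ℂ := by
    rw [inner_emb, star_star]
  have h3 : ⟪emb hs (star q), emb hs e⟫_ℂ = ⟪emb hs (star q), emb hs x⟫_ℂ := by
    rw [← h1, hp, ← Submodule.inner_starProjection_left_eq_right, ← hp,
      hpe _ (star_mem hq)]
  rw [h2, map_sub, inner_sub_right, h3, sub_self]

end

theorem pf_CE (hLBB : T_LBB) (hOPN : T_OPN) : T_CE := by
  intro H _ _ _ N P ξ h hPN x hx
  have hP : IsTr P ξ := isTr_sub h hPN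
  have hs : Summable fun n => ‖ξ n‖ ^ 2 := h.one.summable
  -- the element `e`
  have hex : ∃ e ∈ P, ∀ p ∈ P, tr ξ (p * (x - e)) = 0 := by
    set t : ℝ := ‖x‖ + 1 with ht
    have ht0 : 0 < t := by have := norm_nonneg x; linarith
    have htc : (t : ℂ) ≠ 0 := by exact_mod_cast ht0.ne'
    set x1 : H →L[ℂ] H := ((2 * t : ℝ) : ℂ)⁻¹ • (x + star x) with hx1
    set x2 : H →L[ℂ] H := (-Complex.I * ((2 * t : ℝ) : ℂ)⁻¹) • (x - star x) with hx2
    have hn : ‖(((2 * t : ℝ) : ℂ)⁻¹)‖ = (2 * t)⁻¹ := by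
      rw [norm_inv, Complex.norm_real, Real.norm_eq_abs, abs_of_pos (by positivity)]
    have hle : (2 * t)⁻¹ * (‖x‖ + ‖x‖) ≤ 1 := by
      rw [inv_mul_le_iff₀ (by positivity)]
      linarith
    have n1 : ‖x1‖ ≤ 1 := by
      rw [hx1, norm_smul, hn]
      have h1 := norm_add_le x (star x)
      rw [norm_star] at h1
      exact (mul_le_mul_of_nonneg_left h1 (by positivity)).trans hle
    have n2' : ‖x2‖ ≤ 1 := by
      rw [hx2, norm_smul, norm_mul, norm_neg, Complex.norm_I, one_mul, hn]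
      have h1 := norm_sub_le x (star x)
      rw [norm_star] at h1
      exact (mul_le_mul_of_nonneg_left h1 (by positivity)).trans hle
    have s1 : star x1 = x1 := by
      rw [hx1, star_smul, star_add, star_star, add_comm (star x)]
      congr 1
      simp
    have s2 : star x2 = x2 := by
      have e1 : star (-Complex.I * ((2 * t : ℝ) : ℂ)⁻¹) = Complex.I * ((2 * t : ℝ) : ℂ)⁻¹ := by
        simp
      rw [hx2, star_smul, star_sub, star_star, e1]
      module
    have m1 : x1 ∈ N := smul_mem' N _ (add_mem hx (star_mem hx))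
    have m2 : x2 ∈ N := smul_mem' N _ (sub_mem hx (star_mem hx))
    obtain ⟨e1, he1, h1⟩ := ce_sa hLBB h hPN m1 s1 n1
    obtain ⟨e2, he2, h2⟩ := ce_sa hLBB h hPN m2 s2 n2'
    refine ⟨(t : ℂ) • (e1 + Complex.I • e2),
      smul_mem' P _ (add_mem he1 (smul_mem' P _ he2)), fun p hp => ?_⟩
    have hx' : x = (t : ℂ) • (x1 + Complex.I • x2) := by
      have e3 : Complex.I * (-Complex.I * ((2 * t : ℝ) : ℂ)⁻¹) = ((2 * t : ℝ) : ℂ)⁻¹ := by
        rw [← mul_assoc, mul_neg, Complex.I_mul_I, neg_neg, one_mul]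
      rw [hx1, hx2, smul_smul, e3, ← smul_add, smul_smul]
      have e4 : (x + star x) + (x - star x) = (2 : ℂ) • x := by module
      rw [e4, smul_smul]
      have e5 : (t : ℂ) * ((2 * t : ℝ) : ℂ)⁻¹ * 2 = 1 := by
        push_cast
        field_simp
      rw [e5, one_smul]
    have e6 : p * (x - (t : ℂ) • (e1 + Complex.I • e2)) =
        (t : ℂ) • (p * (x1 - e1) + Complex.I • (p * (x2 - e2))) := by
      conv_lhs => rw [hx']
      rw [← smul_sub, mul_smul_comm]
      congr 1
      rw [← mul_smul_comm, ← mul_add]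
      congr 1
      module
    rw [e6, tr_smul, tr_add hs, tr_smul, h1 p hp, h2 p hp, mul_zero, add_zero, mul_zero]
  obtain ⟨e, heP, hort⟩ := hex
  refine ⟨e, heP, ?_, hort⟩
  refine hOPN H P ξ hP e heP ‖x‖ fun a ha => ?_
  have heN := hPN e heP
  have haN := hPN a ha
  have hb : e * a ∈ P := mul_mem heP ha
  have hbN := hPN _ hb
  have k1 : tr ξ (star (e * a) * (e * a)) = tr ξ (star (e * a) * (x * a)) := by
    have e1 : star (e * a) * (e * a) = (star (e * a) * e) * a := by rw [mul_assoc]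
    have e2 : star (e * a) * (x * a) = (star (e * a) * x) * a := by rw [mul_assoc]
    rw [e1, e2, h.comm _ (mul_mem (star_mem hbN) heN) _ haN,
      h.comm _ (mul_mem (star_mem hbN) hx) _ haN]
    have h3 := hort (a * star (e * a)) (mul_mem ha (star_mem hb))
    rw [mul_sub, tr_sub hs, sub_eq_zero] at h3
    rw [← mul_assoc, ← mul_assoc]
    exact h3.symm
  have k2 := norm_tr_mul_le hs (e * a) (x * a)
  rw [← k1, tr_star_mul hs, Complex.norm_real, Real.norm_eq_abs, abs_of_nonneg (by positivity)]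
    at k2
  have k3 := n2_mul_le hs x a
  have k4 := n2_nonneg ξ (e * a)
  rcases k4.lt_or_eq with h5 | h5
  · have h6 : n2 ξ (e * a) ≤ n2 ξ (x * a) := by
      have h7 : n2 ξ (e * a) * n2 ξ (e * a) ≤ n2 ξ (e * a) * n2 ξ (x * a) := by
        rw [← pow_two]
        exact k2
      exact le_of_mul_le_mul_left h7 h5
    exact h6.trans k3
  · rw [← h5]
    exact mul_nonneg (norm_nonneg _) (n2_nonneg _ _)

end Pool.Agent.H60.IX
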