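import Pool.Agent.H39.IX.Targets2
import Pool.Agent.H80.G2.Basic

/-!
# F: the average over the union of the groups (MP_323167_an)
-/

set_option autoImplicit false

open scoped InnerProductSpace Topology
open Filter Finset Pool.Agent.H80.G2 Pool.Agent.H39.IX

namespace Pool.Agent.H60.IX.FF

section

variable {H : Type} [NormedAddCommGroup H] [InnerProductSpace ℂ H] [CompleteSpace H]

theorem inv1 {G : ℕ → Finset (H →L[ℂ] H)} (hG : GrpSeq G) {g : H →L[ℂ] H} (hg : InG G g) :
    star g * g = 1 := by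
  obtain ⟨n, hn⟩ := hg
  exact hG.uni n g hn

theorem inv2 {G : ℕ → Finset (H →L[ℂ] H)} (hG : GrpSeq G) {g : H →L[ℂ] H} (hg : InG G g) :
    g * star g = 1 := by
  obtain ⟨n, hn⟩ := hg
  have := hG.uni n _ (hG.star n g hn)
  rwa [star_star] at this

theorem str {G : ℕ → Finset (H →L[ℂ] H)} (hG : GrpSeq G) {g : H →L[ℂ] H} (hg : InG G g) :
    InG G (star g) := by
  obtain ⟨n, hn⟩ := hg
  exact ⟨n, hG.star n g hn⟩

theorem nle {G : ℕ → Finset (H →L[ℂ] H)} (hG : GrpSeq G) {g : H →L[ℂ] H} (hg : InG G g) :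
    ‖g‖ ≤ 1 := by
  have h1 := CStarRing.norm_star_mul_self (x := g)
  rw [inv1 hG hg] at h1
  have h2 : ‖(1 : H →L[ℂ] H)‖ ≤ 1 := ContinuousLinearMap.norm_id_le
  nlinarith [norm_nonneg g]

theorem bd {G : ℕ → Finset (H →L[ℂ] H)} (hG : GrpSeq G) (T : H →L[ℂ] H) :
    Bd G (fun g => g * T * star g) ‖T‖ := by
  intro g hg
  have h1 := nle hG hg
  have h2 : ‖star g‖ ≤ 1 := by rw [norm_star]; exact h1
  refine (norm_mul_le _ _).trans ?_
  have h3 := norm_mul_le g T
  have h4 := norm_nonneg T
  have h5 := norm_nonneg (g * T)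
  have h6 := norm_nonneg (star g)
  have h7 : ‖g‖ * ‖T‖ ≤ ‖T‖ := by nlinarith
  nlinarith

end

theorem pf_F (hMN : T_MN) : T_F := by
  intro H _ _ _ G hG
  obtain ⟨m, hm⟩ := hMN H G hG
  refine ⟨fun T => m fun g => g * T * star g, ?_⟩
  constructor
  · intro S T
    change m _ = m _ + m _
    rw [← hm.add _ _ _ _ (bd hG S) (bd hG T)]
    congr 1
    funext g
    rw [mul_add, add_mul]
  · intro c T
    change m _ = c • m _
    have h1 := hm.mull _ _ (bd hG T) (c • (1 : H →L[ℂ] H))
    rw [smul_mul_assoc, one_mul] at h1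
    rw [← h1]
    congr 1
    funext g
    rw [smul_mul_assoc, one_mul, mul_smul_comm, smul_mul_assoc]
  · intro T
    change m _ = star (m _)
    rw [← hm.star _ _ (bd hG T)]
    congr 1
    funext g
    rw [star_mul, star_mul, star_star, mul_assoc]
  · intro T h hh
    change h * m _ = m _ * h
    rw [← hm.mull _ _ (bd hG T) h, ← hm.mulr _ _ (bd hG T) h]
    have hb : Bd G (fun g => g * T * star g * h) (‖T‖ * ‖h‖) := by
      intro g hg
      refine (norm_mul_le _ _).trans ?_
      exact mul_le_mul_of_nonneg_right (bd hG T g hg) (norm_nonneg h)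
    rw [← hm.invl _ _ hb h hh]
    congr 1
    funext g
    rw [star_mul]
    have := inv1 hG hh
    calc h * (g * T * star g) = h * g * T * star g * 1 := by simp only [mul_assoc, mul_one]
      _ = h * g * T * star g * (star h * h) := by rw [this]
      _ = h * g * T * (star g * star h) * h := by simp only [mul_assoc]
  · intro T hT
    change m _ = T
    rw [hm.eqv _ (fun _ => T) ?_, hm.cst]
    intro g hg
    change g * T * star g = T
    rw [hT g hg, mul_assoc, inv2 hG hg, mul_one]
  · intro a b T ha hb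
    change m _ = a * m _ * b
    have hb' : Bd G (fun g => a * (g * T * star g)) (‖a‖ * ‖T‖) := by
      intro g hg
      refine (norm_mul_le _ _).trans ?_
      exact mul_le_mul_of_nonneg_left (bd hG T g hg) (norm_nonneg a)
    rw [← hm.mull _ _ (bd hG T) a, ← hm.mulr _ _ hb' b]
    refine hm.eqv _ _ fun g hg => ?_
    change g * (a * T * b) * star g = a * (g * T * star g) * b
    calc g * (a * T * b) * star g = (g * a) * T * (b * star g) := by simp only [mul_assoc]
      _ = (a * g) * T * (star g * b) := by rw [ha g hg, hb _ (str hG hg)]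
      _ = a * (g * T * star g) * b := by simp only [mul_assoc]
  · intro T
    exact hm.nrm _ _ (bd hG T)
  · intro N hN T hT
    refine hm.mem _ _ (bd hG T) N fun g hg => ?_
    exact mul_mem (mul_mem (hN g hg) hT) (star_mem (hN g hg))
  · intro M ξ hξ hM x hx
    change tr ξ (m _) = tr ξ x
    have hc : Bd G (fun _ => -x) ‖x‖ := fun g _ => by rw [norm_neg]
    have h1 := hm.add _ _ _ _ (bd hG x) hc
    rw [hm.cst] at h1
    have hb : Bd G (fun g => g * x * star g + -x) (‖x‖ + ‖x‖) := fun g hg =>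
      (norm_add_le _ _).trans (add_le_add (bd hG x g hg) (by rw [norm_neg]))
    have h2 := hm.trc _ _ hb ξ hξ.sum 0 fun g hg => by
      rw [tr_add hξ.sum, tr_conj hξ ⟨hM g hg, inv1 hG hg, inv2 hG hg⟩ hx, tr_neg,
        add_neg_cancel, norm_zero]
    rw [h1, tr_add hξ.sum, tr_neg] at h2
    have h3 := norm_le_zero_iff.1 h2
    exact add_neg_eq_zero.1 h3
  · intro M ξ hξ hM a ha b hb T
    refine hm.trc _ _ (bd hG _) ξ hξ.sum _ fun g hg => ?_
    have hu : Uni M (star g) := Uni.star ⟨hM g hg, inv1 hG hg, inv2 hG hg⟩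
    have e : g * (star a * T * b) * star g = star (a * star g) * (T * (b * star g)) := by
      rw [star_mul, star_star]
      simp only [mul_assoc]
    rw [e]
    refine (norm_tr_mul_le hξ.sum _ _).trans ?_
    rw [n2_mul_uni hξ hu ha]
    have h1 := n2_mul_le hξ.sum T (b * star g)
    rw [n2_mul_uni hξ hu hb] at h1
    have h2 := mul_le_mul_of_nonneg_left h1 (n2_nonneg ξ a)
    linarith

end Pool.Agent.H60.IX.FF
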