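import Pool.Agent.H39.IX.Targets2

/-!
# KAP: density of the unit ball (MP_323167_an)
-/

set_option autoImplicit false

open scoped InnerProductSpace Topology
open Filter Finset Pool.Agent.H80.G2 Pool.Agent.H39.IX

namespace Pool.Agent.H60.IX

section

variable {H : Type} [NormedAddCommGroup H] [InnerProductSpace ℂ H] [CompleteSpace H]

/-- the span of a star closed multiplicative set -/
noncomputable def spn (S : Set (H →L[ℂ] H)) (hst : ∀ x ∈ S, star x ∈ S)
    (hmul : ∀ x ∈ S, ∀ y ∈ S, x * y ∈ S) (hone : (1 : H →L[ℂ] H) ∈ S) :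
    StarSubalgebra ℂ (H →L[ℂ] H) where
  toSubalgebra := Submodule.toSubalgebra (Submodule.span ℂ S) (Submodule.subset_span hone)
    (by
      intro x y hx hy
      refine Submodule.span_induction₂ (p := fun x y _ _ => x * y ∈ Submodule.span ℂ S)
        ?_ ?_ ?_ ?_ ?_ ?_ ?_ hx hy
      · intro x y hx hy
        exact Submodule.subset_span (hmul x hx y hy)
      · intro y _
        rw [zero_mul]
        exact Submodule.zero_mem _
      · intro x _
        rw [mul_zero]
        exact Submodule.zero_mem _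
      · intro x y z _ _ _ h1 h2
        rw [add_mul]
        exact Submodule.add_mem _ h1 h2
      · intro x y z _ _ _ h1 h2
        rw [mul_add]
        exact Submodule.add_mem _ h1 h2
      · intro r x y _ _ h1
        rw [smul_mul_assoc]
        exact Submodule.smul_mem _ _ h1
      · intro r x y _ _ h1
        rw [mul_smul_comm]
        exact Submodule.smul_mem _ _ h1)
  star_mem' := by
    intro a ha
    have h2 : star a ∈ Submodule.span ℂ S := by
      have h1 : a ∈ Submodule.span ℂ S := ha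
      induction h1 using Submodule.span_induction with
      | mem x hx => exact Submodule.subset_span (hst x hx)
      | zero => rw [star_zero]; exact Submodule.zero_mem _
      | add x y hx hy h1 h2 => rw [star_add]; exact Submodule.add_mem _ (h1 hx) (h2 hy)
      | smul c x hx h1 => rw [star_smul]; exact Submodule.smul_mem _ _ (h1 hx)
    exact h2

theorem mem_spn {S : Set (H →L[ℂ] H)} {hst : ∀ x ∈ S, star x ∈ S}
    {hmul : ∀ x ∈ S, ∀ y ∈ S, x * y ∈ S} {hone : (1 : H →L[ℂ] H) ∈ S} {a : H →L[ℂ] H} :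
    a ∈ spn S hst hmul hone ↔ a ∈ Submodule.span ℂ S := Iff.rfl

end

theorem pf_KAP (hDNY : T_DNY) (hRSV : T_RSV) (hCAY : T_CAY) : T_KAP := by
  intro H _ _ _ N ξ h S hSN hst hmul hone x hxN hxs hx1 hxc δ hδ
  obtain ⟨X, hXs, hxX, hXc⟩ := hCAY H x hxs hx1
  have hXN : X ∈ N := by
    refine mem_of_comm fun y hy => ?_
    exact (hXc y (hy x hxN).symm).symm
  have hXS : ∀ y : H →L[ℂ] H, (∀ s ∈ S, s * y = y * s) → X * y = y * X := fun y hy =>
    (hXc y (hxc y hy).symm).symm
  obtain ⟨h0, hh0, hd⟩ := hDNY H N ξ h S hSN hst hmul hone X hXS (δ / 3) (by positivity)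
  have hh0N : h0 ∈ N := by
    refine Submodule.span_induction (p := fun z _ => z ∈ N) hSN (zero_mem N)
      (fun _ _ _ _ h1 h2 => add_mem h1 h2) (fun c _ _ h1 => smul_mem' N c h1) hh0
  set B := spn S hst hmul hone with hB
  set a : H →L[ℂ] H := (1 / 2 : ℂ) • (h0 + star h0) with ha
  have haB : a ∈ B := by
    have h1 : h0 ∈ B := hh0
    exact SMulMemClass.smul_mem _ (add_mem h1 (star_mem h1))
  have has : star a = a := by
    rw [ha, star_smul, star_add, star_star, add_comm (star h0)]
    congr 1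
    simp
  have haN : a ∈ N := smul_mem' N _ (add_mem hh0N (star_mem hh0N))
  have hda : n2 ξ (X - a) < δ / 3 := by
    have e : X - a = (1 / 2 : ℂ) • ((X - h0) + star (X - h0)) := by
      rw [star_sub, hXs, ha]
      module
    rw [e, n2_smul h.sum]
    have h1 := n2_add h.sum (X - h0) (star (X - h0))
    rw [n2_star h (sub_mem hXN hh0N)] at h1
    have h2 : ‖(1 / 2 : ℂ)‖ = 1 / 2 := by norm_num
    rw [h2]
    linarith
  obtain ⟨r, hrs, hr1, hr2, hra, hrn, hran, hrc, hrS⟩ := hRSV H a has
  obtain ⟨R, hRs, hR1, hR2, hRX, hRn, hRXn, hRc, -⟩ := hRSV H X hXs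
  have hrN : r ∈ N := mem_of_comm fun y hy => (hrc y (hy a haN).symm).symm
  have hRN : R ∈ N := mem_of_comm fun y hy => (hRc y (hy X hXN).symm).symm
  set s : H →L[ℂ] H := (2 : ℂ) • (r * a) with hs
  have hsN : s ∈ N := smul_mem' N _ (mul_mem hrN haN)
  have hsB : s ∈ B.topologicalClosure := by
    have h1 : a ∈ B.topologicalClosure := B.le_topologicalClosure haB
    have h2 : r ∈ B.topologicalClosure := hrS _ B.isClosed_topologicalClosure h1
    exact SMulMemClass.smul_mem _ (mul_mem h2 h1)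
  refine ⟨s, ?_, hsN, ?_, ?_, ?_⟩
  · have h1 : s ∈ (B.topologicalClosure : Set (H →L[ℂ] H)) := hsB
    rw [StarSubalgebra.topologicalClosure_coe] at h1
    exact h1
  · rw [hs, star_smul, star_mul, has, hrs, hra]
    congr 1
    simp
  · rw [hs, norm_smul]
    have h2 : ‖(2 : ℂ)‖ = 2 := by norm_num
    rw [h2]
    linarith
  · have hx2 : x = (2 : ℂ) • (X * R) := by
      have h1 : x * (1 + X * X) * R = (2 : ℂ) • X * R := by rw [hxX]
      rw [mul_assoc, hR2, mul_one, smul_mul_assoc] at h1
      exact h1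
    have hid : r * a - X * R = r * (a - X) * R + (r * a) * (X - a) * (X * R) := by
      have e1 : r * (a * (1 + X * X) - (1 + a * a) * X) * R = r * a - X * R := by
        have e2 : r * (a * (1 + X * X) - (1 + a * a) * X) * R =
            r * a * ((1 + X * X) * R) - (r * (1 + a * a)) * X * R := by noncomm_ring
        rw [e2, hR2, hr1, mul_one, one_mul]
      rw [← e1]
      noncomm_ring
    have hsx : x - s = (-2 : ℂ) • (r * (a - X) * R) + (-2 : ℂ) • ((r * a) * (X - a) * (X * R)) := by
      rw [hx2, hs, ← smul_add, ← hid]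
      module
    have b1 : n2 ξ (r * (a - X) * R) ≤ n2 ξ (X - a) := by
      have c1 := n2_mul_le' h (mul_mem hrN (sub_mem haN hXN)) hRN
      have c2 := n2_mul_le h.sum r (a - X)
      rw [n2_sub_comm ξ a X] at c2
      have c3 := n2_nonneg ξ (X - a)
      have c4 := n2_nonneg ξ (r * (a - X))
      have c5 : ‖r‖ * n2 ξ (X - a) ≤ 1 * n2 ξ (X - a) := mul_le_mul_of_nonneg_right hrn c3
      have c6 : n2 ξ (r * (a - X)) * ‖R‖ ≤ n2 ξ (r * (a - X)) * 1 :=
        mul_le_mul_of_nonneg_left hRn c4
      linarith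
    have b2 : n2 ξ ((r * a) * (X - a) * (X * R)) ≤ 1 / 4 * n2 ξ (X - a) := by
      have c1 := n2_mul_le' h (mul_mem (mul_mem hrN haN) (sub_mem hXN haN)) (mul_mem hXN hRN)
      have c2 := n2_mul_le h.sum (r * a) (X - a)
      have c3 := n2_nonneg ξ (X - a)
      have c4 := n2_nonneg ξ (r * a * (X - a))
      have hXR : ‖X * R‖ ≤ 1 / 2 := by rw [hRX]; exact hRXn
      have c5 : ‖r * a‖ * n2 ξ (X - a) ≤ 1 / 2 * n2 ξ (X - a) :=
        mul_le_mul_of_nonneg_right hran c3
      have c6 : n2 ξ (r * a * (X - a)) * ‖X * R‖ ≤ n2 ξ (r * a * (X - a)) * (1 / 2) :=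
        mul_le_mul_of_nonneg_left hXR c4
      linarith
    rw [hsx]
    have h3 := n2_add h.sum ((-2 : ℂ) • (r * (a - X) * R))
      ((-2 : ℂ) • ((r * a) * (X - a) * (X * R)))
    rw [n2_smul h.sum, n2_smul h.sum] at h3
    have h4 : ‖(-2 : ℂ)‖ = 2 := by norm_num
    rw [h4] at h3
    linarith

end Pool.Agent.H60.IX
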